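import Mathlib

set_option autoImplicit false

namespace Pool.Agent.H.MP_317f4c_nt

def E (c y : ℤ) : ℤ := 32 * (17 * y + c)

def h (y c : ℤ) : ℤ :=
  if c = 0 then E 5 (6 * y + 7) else
  if c = 1 then (if y % 7 = 0 then E 2 (y / 7) else if y % 2 = 0 then E 4 y else E 9 y) else
  if c = 2 then (if y % 7 = 0 then E 3 (y / 7) else if y % 2 = 0 then E 10 y else E 15 y) else
  if c = 3 then (if y % 7 = 0 then E 1 (2 * (y / 7)) else E 11 y) else
  if c = 4 then (if y % 2 = 0 then E 4 (7 * (y / 2)) else E 1 (3 * y)) else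
  if c = 5 then (if y % 7 = 0 then E 6 (y / 7) else if y % 2 = 0 then E 8 y else E 13 y) else
  if c = 6 then (if y % 7 = 0 then E 7 (y / 7) else E 14 y) else
  if c = 7 then (if y % 7 = 0 then E 5 (2 * (y / 7)) else if y % 2 = 0 then E 15 y else E 10 y) else
  if c = 8 then (if y % 2 = 0 then E 8 (7 * (y / 2)) else E 5 (3 * y)) else
  if c = 9 then (if y % 2 = 0 then E 11 (7 * (y / 2)) else if y % 3 = 0 then E 12 (y / 3) else
    if y % 3 = 1 then 32 * (y / 6) + 1 else E 1 y) else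
  if c = 10 then E 9 (7 * y) else
  if c = 11 then E 10 (7 * y) else
  if c = 12 then (if y % 7 = 0 then E 12 (2 * (y / 7)) else if y % 2 = 0 then E 9 y else E 4 y) else
  if c = 13 then (if y % 2 = 0 then E 15 (7 * (y / 2)) else if y % 3 = 0 then E 16 (y / 3) else
    if y % 3 = 1 then E 0 (y / 6) else E 5 y) else
  if c = 14 then E 13 (7 * y) else
  if c = 15 then E 14 (7 * y) else
  (if y % 7 = 0 then E 16 (2 * (y / 7)) else if y % 2 = 0 then E 13 y else E 8 y)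

def hi (y c : ℤ) : ℤ :=
  if c = 0 then E 13 (6 * y + 1) else
  if c = 1 then (if y % 2 = 0 then E 3 (7 * (y / 2)) else if y % 3 = 0 then E 4 (y / 3) else
    if y % 3 = 1 then 32 * (y / 6 - 1) + 31 else E 9 y) else
  if c = 2 then E 1 (7 * y) else
  if c = 3 then E 2 (7 * y) else
  if c = 4 then (if y % 7 = 0 then E 4 (2 * (y / 7)) else if y % 2 = 0 then E 1 y else E 12 y) else
  if c = 5 then (if y % 2 = 0 then E 7 (7 * (y / 2)) else if y % 3 = 0 then E 8 (y / 3) else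
    if y % 3 = 1 then E 0 (y / 6 - 1) else E 13 y) else
  if c = 6 then E 5 (7 * y) else
  if c = 7 then E 6 (7 * y) else
  if c = 8 then (if y % 7 = 0 then E 8 (2 * (y / 7)) else if y % 2 = 0 then E 5 y else E 16 y) else
  if c = 9 then (if y % 7 = 0 then E 10 (y / 7) else if y % 2 = 0 then E 12 y else E 1 y) else
  if c = 10 then (if y % 7 = 0 then E 11 (y / 7) else if y % 2 = 0 then E 2 y else E 7 y) else
  if c = 11 then (if y % 7 = 0 then E 9 (2 * (y / 7)) else E 3 y) else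
  if c = 12 then (if y % 2 = 0 then E 12 (7 * (y / 2)) else E 9 (3 * y)) else
  if c = 13 then (if y % 7 = 0 then E 14 (y / 7) else if y % 2 = 0 then E 16 y else E 5 y) else
  if c = 14 then (if y % 7 = 0 then E 15 (y / 7) else E 6 y) else
  if c = 15 then (if y % 7 = 0 then E 13 (2 * (y / 7)) else if y % 2 = 0 then E 7 y else E 2 y) else
  (if y % 2 = 0 then E 16 (7 * (y / 2)) else E 13 (3 * y))

def g (x : ℤ) : ℤ :=
  if x % 32 = 0 then h (x / 32 / 17) (x / 32 % 17) else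
  if x % 32 = 31 then E 1 (6 * (x / 32) + 7) else x + 1

def gi (x : ℤ) : ℤ :=
  if x % 32 = 0 then hi (x / 32 / 17) (x / 32 % 17) else
  if x % 32 = 1 then E 9 (6 * (x / 32) + 1) else x - 1

lemma g_E {c : ℤ} (y : ℤ) (h0 : 0 ≤ c) (h1 : c < 17) : g (E c y) = h y c := by
  unfold g E
  rw [if_pos (by omega)]
  congr 1 <;> omega

lemma gi_E {c : ℤ} (y : ℤ) (h0 : 0 ≤ c) (h1 : c < 17) : gi (E c y) = hi y c := by
  unfold gi E
  rw [if_pos (by omega)]
  congr 1 <;> omega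

lemma gi_Z (m : ℤ) : gi (32 * m + 1) = E 9 (6 * m + 1) := by
  unfold gi
  rw [if_neg (by omega), if_pos (by omega)]
  congr 1; omega

lemma g_Z (m : ℤ) : g (32 * m + 31) = E 1 (6 * m + 7) := by
  unfold g
  rw [if_neg (by omega), if_pos (by omega)]
  congr 1; omega

lemma gi_h (y c : ℤ) (h0 : 0 ≤ c) (h1 : c < 17) : gi (h y c) = E c y := by
  interval_cases c <;> simp only [h, Int.reduceEq, if_true, if_false] <;> (try split_ifs) <;>
    (first | rw [gi_Z] | rw [gi_E _ (by norm_num) (by norm_num)]) <;>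
    (try simp only [hi, Int.reduceEq, if_true, if_false]) <;> (try split_ifs) <;>
    (try unfold E) <;> omega

lemma g_hi (y c : ℤ) (h0 : 0 ≤ c) (h1 : c < 17) : g (hi y c) = E c y := by
  interval_cases c <;> simp only [hi, Int.reduceEq, if_true, if_false] <;> (try split_ifs) <;>
    (first | rw [g_Z] | rw [g_E _ (by norm_num) (by norm_num)]) <;>
    (try simp only [h, Int.reduceEq, if_true, if_false]) <;> (try split_ifs) <;>
    (try unfold E) <;> omega

lemma gi_g (x : ℤ) : gi (g x) = x := by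
  unfold g
  split_ifs with h1 h2
  · rw [gi_h _ _ (by omega) (by omega)]; unfold E; omega
  · rw [gi_E _ (by norm_num) (by norm_num)]
    simp only [hi, Int.reduceEq, if_true, if_false]
    split_ifs <;> omega
  · unfold gi
    split_ifs <;> omega

lemma g_gi (x : ℤ) : g (gi x) = x := by
  unfold gi
  split_ifs with h1 h2
  · rw [g_hi _ _ (by omega) (by omega)]; unfold E; omega
  · rw [g_E _ (by norm_num) (by norm_num)]
    simp only [h, Int.reduceEq, if_true, if_false]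
    split_ifs <;> omega
  · unfold g
    split_ifs <;> omega

lemma g_bij : Function.Bijective g :=
  ⟨Function.LeftInverse.injective gi_g, Function.RightInverse.surjective g_gi⟩

lemma h_dd (y c : ℤ) (h0 : 0 ≤ c) (h1 : c < 17) : h (y + 84) c - h (y + 42) c = h (y + 42) c - h y c := by
  have a1 : (y + 84) % 7 = y % 7 := by omega
  have a2 : (y + 84) % 2 = y % 2 := by omega
  have a3 : (y + 84) % 3 = y % 3 := by omega
  have b1 : (y + 42) % 7 = y % 7 := by omega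
  have b2 : (y + 42) % 2 = y % 2 := by omega
  have b3 : (y + 42) % 3 = y % 3 := by omega
  interval_cases c <;> simp only [h, a1, a2, a3, b1, b2, b3, Int.reduceEq, if_true, if_false] <;>
    (try split_ifs) <;> (try unfold E) <;> omega

lemma g_dd (x : ℤ) : g (x + 22848 + 22848) - g (x + 22848) = g (x + 22848) - g x := by
  have a1 : (x + 22848 + 22848) % 32 = x % 32 := by omega
  have a2 : (x + 22848) % 32 = x % 32 := by omega
  have a3 : (x + 22848 + 22848) / 32 % 17 = x / 32 % 17 := by omega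
  have a4 : (x + 22848) / 32 % 17 = x / 32 % 17 := by omega
  have a5 : (x + 22848 + 22848) / 32 / 17 = x / 32 / 17 + 84 := by omega
  have a6 : (x + 22848) / 32 / 17 = x / 32 / 17 + 42 := by omega
  simp only [g, a1, a2, a3, a4, a5, a6]
  split_ifs
  · exact h_dd _ _ (by omega) (by omega)
  · unfold E; omega
  · omega

lemma g_lin (r t : ℤ) : g (r + 22848 * t) = g r + t * (g (r + 22848) - g r) := by
  have d : ∀ t : ℤ, g (r + 22848 * t + 22848) - g (r + 22848 * t) = g (r + 22848) - g r := by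
    intro t
    induction t using Int.induction_on with
    | zero => simp
    | succ t ih => rw [← ih, ← g_dd (r + 22848 * t)]; congr 2 <;> ring
    | pred t ih => rw [← ih, ← g_dd]; congr 2 <;> ring
  induction t using Int.induction_on with
  | zero => simp
  | succ t ih =>
    have := d t
    rw [show r + 22848 * ((t : ℤ) + 1) = r + 22848 * t + 22848 by ring]
    linarith
  | pred t ih =>
    have := d (-t - 1)
    rw [show r + 22848 * (-(t : ℤ) - 1) + 22848 = r + 22848 * (-t) by ring] at this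
    linarith

lemma g_aff : ∃ a b : ℕ → ℚ, ∀ n : ℤ,
    (g n : ℚ) = a (n % ((22848 : ℕ) : ℤ)).toNat * (n : ℚ) + b (n % ((22848 : ℕ) : ℤ)).toNat := by
  refine ⟨fun r => ((g (r + 22848) - g r : ℤ) : ℚ) / 22848,
    fun r => g r - ((g (r + 22848) - g r : ℤ) : ℚ) / 22848 * r, fun n => ?_⟩
  obtain ⟨r, hr⟩ : ∃ r : ℕ, n % ((22848 : ℕ) : ℤ) = r := ⟨_, (Int.toNat_of_nonneg (by omega)).symm⟩
  obtain ⟨t, rfl⟩ : ∃ t, n = r + 22848 * t := ⟨n / 22848, by omega⟩
  rw [hr, Int.toNat_natCast, g_lin]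
  push_cast
  ring

inductive Stp : ℤ × ℤ → ℤ × ℤ → Prop
  | d0 (y : ℤ) : Stp (0, 7 * y) (1, y)
  | d1 (y : ℤ) : Stp (1, 7 * y) (2, y)
  | d2 (y : ℤ) : Stp (2, 7 * y) (0, 2 * y)
  | de (y : ℤ) : y % 7 ≠ 0 → y % 2 = 0 → Stp (0, y) (3, y)
  | ee (y : ℤ) : Stp (3, 2 * y) (3, 7 * y)
  | ed (y : ℤ) : y % 2 ≠ 0 → Stp (3, y) (0, 3 * y)

def cd (s : Bool) : ℤ := if s then 4 else 0

def L (s : Bool) (a : ℤ × ℤ) : ℤ := E (1 + cd s + a.1) a.2

def R (s : Bool) (a : ℤ × ℤ) : ℤ := E (9 + cd s + a.1) a.2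

lemma stp_g {a b : ℤ × ℤ} (H : Stp a b) (s : Bool) : g (L s a) = L s b ∧ g (R s b) = R s a := by
  cases H <;> cases s <;> simp only [L, R, cd, Bool.false_eq_true, if_true, if_false, Int.reduceAdd] <;>
    rw [g_E _ (by norm_num) (by norm_num), g_E _ (by norm_num) (by norm_num)] <;>
    simp only [h, Int.reduceEq, if_true, if_false] <;> (try split_ifs) <;>
    (try unfold E) <;> first | omega | exact ⟨by omega, trivial⟩

def S0 (a b : ℤ) : Prop := a % 32 = 0 ∧ g a = b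

lemma L_mod (s : Bool) (a : ℤ × ℤ) : L s a % 32 = 0 := by unfold L E; omega

lemma R_mod (s : Bool) (a : ℤ × ℤ) : R s a % 32 = 0 := by unfold R E; omega

open Relation

lemma run_g {a b : ℤ × ℤ} (H : ReflTransGen Stp a b) (s : Bool) :
    ReflTransGen S0 (L s a) (L s b) ∧ ReflTransGen S0 (R s b) (R s a) := by
  induction H with
  | refl => exact ⟨.refl, .refl⟩
  | tail _ h2 ih =>
    exact ⟨ih.1.tail ⟨L_mod _ _, (stp_g h2 s).1⟩, ih.2.head ⟨R_mod _ _, (stp_g h2 s).2⟩⟩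

lemma dloop (t : ℕ) (y : ℤ) : ReflTransGen Stp (0, 7 ^ (3 * t) * y) (0, 2 ^ t * y) := by
  induction t generalizing y with
  | zero => simpa using ReflTransGen.refl
  | succ t ih =>
    rw [show (7 : ℤ) ^ (3 * (t + 1)) * y = 7 * (7 * (7 * (7 ^ (3 * t) * y))) by ring,
      show (2 : ℤ) ^ (t + 1) * y = 2 ^ t * (2 * y) by ring]
    refine .head (.d0 _) (.head (.d1 _) (.head (.d2 _) ?_))
    rw [show 2 * ((7 : ℤ) ^ (3 * t) * y) = 7 ^ (3 * t) * (2 * y) by ring]
    exact ih _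

lemma eloop (t : ℕ) (y : ℤ) : ReflTransGen Stp (3, 2 ^ t * y) (3, 7 ^ t * y) := by
  induction t generalizing y with
  | zero => simpa using ReflTransGen.refl
  | succ t ih =>
    rw [show (2 : ℤ) ^ (t + 1) * y = 2 * (2 ^ t * y) by ring,
      show (7 : ℤ) ^ (t + 1) * y = 7 ^ t * (7 * y) by ring]
    refine .head (.ee _) ?_
    rw [show 7 * ((2 : ℤ) ^ t * y) = 2 ^ t * (7 * y) by ring]
    exact ih _

lemma p7 {a b : ℤ} (ha : a % 7 ≠ 0) (hb : b % 7 ≠ 0) : a * b % 7 ≠ 0 := by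
  intro h
  have : Prime (7 : ℤ) := Int.prime_iff_natAbs_prime.2 (by norm_num)
  rcases this.dvd_or_dvd (Int.dvd_of_emod_eq_zero h) with h | h <;> omega

lemma p27 (t : ℕ) : (2 : ℤ) ^ t % 7 ≠ 0 := by
  induction t with
  | zero => norm_num
  | succ t ih => rw [pow_succ]; exact p7 ih (by norm_num)

lemma p76 (t : ℕ) : (7 : ℤ) ^ t % 6 = 1 := by
  induction t with
  | zero => norm_num
  | succ t ih => rw [pow_succ]; omega

lemma mul6 {a b : ℤ} (ha : a % 6 = 1) : a * b % 6 = b % 6 := by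
  rw [Int.mul_emod, ha]; simp

lemma red (t : ℕ) {y : ℤ} (h7 : y % 7 ≠ 0) (h2 : y % 2 ≠ 0) :
    ReflTransGen Stp (0, 7 ^ (3 * (t + 1)) * y) (0, 7 ^ (t + 1) * (3 * y)) := by
  have a := mul6 (b := y) (p76 (t + 1))
  refine ((dloop _ y).tail (.de _ (p7 (p27 _) h7) ?_)).trans (((eloop _ y).tail
    (.ed _ (by omega))).trans ?_)
  · rw [pow_succ, mul_right_comm]; omega
  · rw [mul_left_comm]

lemma junc (k : ℕ) {y : ℤ} (h7 : y % 7 ≠ 0) (h2 : y % 2 ≠ 0) :
    ReflTransGen Stp (0, 7 ^ (3 ^ k) * y) (1, 3 ^ k * y) ∧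
      ReflTransGen Stp (0, 7 ^ (2 * 3 ^ k) * y) (2, 3 ^ k * y) := by
  induction k generalizing y with
  | zero =>
    refine ⟨by simpa using ReflTransGen.single (.d0 y), ?_⟩
    rw [show (7 : ℤ) ^ (2 * 3 ^ 0) * y = 7 * (7 * y) by ring, pow_zero, one_mul]
    exact .head (.d0 _) (.single (.d1 _))
  | succ k ih =>
    obtain ⟨t, ht⟩ : ∃ t, 3 ^ k = t + 1 := ⟨3 ^ k - 1, by have := Nat.one_le_pow k 3 (by omega); omega⟩
    have i := ih (y := 3 * y) (by omega) (by omega)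
    rw [show (3 : ℤ) ^ (k + 1) * y = 3 ^ k * (3 * y) by ring, pow_succ, ht]
    rw [ht] at i
    refine ⟨?_, ?_⟩
    · rw [mul_comm (t + 1)]; exact (red t h7 h2).trans i.1
    · rw [show 2 * ((t + 1) * 3) = 3 * (2 * t + 1 + 1) by ring]
      exact (red _ h7 h2).trans i.2

lemma nonj (v : ℕ) {y : ℤ} (h7 : y % 7 ≠ 0) (h2 : y % 2 ≠ 0) :
    ∃ j z, ReflTransGen Stp (0, 7 ^ v * y) (j, z) ∧ z % 7 ≠ 0 ∧ ((j = 0 ∧ z % 2 ≠ 0) ∨
      (j = 1 ∧ (z % 2 ≠ 0 → ∃ k, v = 3 ^ k)) ∨ (j = 2 ∧ (z % 2 ≠ 0 → ∃ k, v = 2 * 3 ^ k))) := by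
  induction v using Nat.strong_induction_on generalizing y with
  | _ v ih =>
  have ev : ∀ t : ℕ, 2 ^ t * y % 2 ≠ 0 → t = 0 := by
    rintro (_ | t) h
    · rfl
    · rw [pow_succ, mul_right_comm] at h; omega
  obtain ⟨t, rfl | rfl | rfl⟩ : ∃ t, v = 3 * t ∨ v = 3 * t + 1 ∨ v = 3 * t + 2 := ⟨v / 3, by omega⟩
  · rcases t with _ | t
    · exact ⟨0, y, by simpa using ReflTransGen.refl, h7, Or.inl ⟨rfl, h2⟩⟩
    · obtain ⟨j, z, h1, h3, h4⟩ := ih (t + 1) (by omega) (y := 3 * y) (by omega) (by omega)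
      refine ⟨j, z, (red t h7 h2).trans h1, h3, h4.imp id (Or.imp ?_ ?_)⟩
      · exact fun h => ⟨h.1, fun o => (h.2 o).elim fun k hk => ⟨k + 1, by rw [hk]; ring⟩⟩
      · exact fun h => ⟨h.1, fun o => (h.2 o).elim fun k hk => ⟨k + 1, by rw [hk]; ring⟩⟩
  · refine ⟨1, 2 ^ t * y, ?_, p7 (p27 t) h7, Or.inr (Or.inl ⟨rfl, fun o => ⟨0, by rw [ev t o]; rfl⟩⟩)⟩
    have := dloop t (7 * y)
    rw [mul_left_comm (2 ^ t)] at this
    rw [pow_succ, mul_assoc]
    exact this.tail (.d0 _)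
  · refine ⟨2, 2 ^ t * y, ?_, p7 (p27 t) h7, Or.inr (Or.inr ⟨rfl, fun o => ⟨0, by rw [ev t o]; rfl⟩⟩)⟩
    have := dloop t (7 * (7 * y))
    rw [show (2 : ℤ) ^ t * (7 * (7 * y)) = 7 * (7 * (2 ^ t * y)) by ring] at this
    rw [pow_succ, pow_succ, mul_assoc, mul_assoc]
    exact (this.tail (.d0 _)).tail (.d1 _)

inductive Gr : Bool × ℤ → Bool × ℤ → Prop
  | ab (k : ℕ) (u : ℤ) : u % 7 ≠ 0 → Gr (false, 7 ^ 3 ^ k * u - 6) (true, 7 ^ (2 * 3 ^ k) * u)
  | ba (k : ℕ) (u : ℤ) : u % 7 ≠ 0 → Gr (true, 7 ^ (2 * 3 ^ k) * u - 6) (false, 7 ^ 3 ^ k * u)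
  | nj (s : Bool) (p : ℤ) : (∀ (k : ℕ) (u : ℤ), u % 7 ≠ 0 →
      p ≠ 7 ^ ((if s then 2 else 1) * 3 ^ k) * u) → Gr (s, p - 6) (s, p)

lemma Gr_next (s : Bool) (n : ℤ) : ∃ z, Gr (s, n) z := by
  obtain ⟨p, rfl⟩ : ∃ p, n = p - 6 := ⟨n + 6, by ring⟩
  by_cases h : ∀ (k : ℕ) (u : ℤ), u % 7 ≠ 0 → p ≠ 7 ^ ((if s then 2 else 1) * 3 ^ k) * u
  · exact ⟨_, .nj s p h⟩
  · push Not at h
    obtain ⟨k, u, h1, rfl⟩ := h
    cases s
    · exact ⟨_, by simpa using Gr.ab k u h1⟩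
    · exact ⟨_, by simpa using Gr.ba k u h1⟩

lemma Gr_prev (s : Bool) (p : ℤ) : ∃ z, Gr z (s, p) := by
  by_cases h : ∀ (k : ℕ) (u : ℤ), u % 7 ≠ 0 → p ≠ 7 ^ ((if s then 2 else 1) * 3 ^ k) * u
  · exact ⟨_, .nj s p h⟩
  · push Not at h
    obtain ⟨k, u, h1, rfl⟩ := h
    cases s
    · exact ⟨_, by simpa using Gr.ba k u h1⟩
    · exact ⟨_, by simpa using Gr.ab k u h1⟩

lemma Gr_mod {z z' : Bool × ℤ} (H : Gr z z') : z.2 % 6 = z'.2 % 6 := by
  cases H with
  | ab k u => have := mul6 (b := u) (p76 (3 ^ k)); have := mul6 (b := u) (p76 (2 * 3 ^ k)); omega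
  | ba k u => have := mul6 (b := u) (p76 (3 ^ k)); have := mul6 (b := u) (p76 (2 * 3 ^ k)); omega
  | nj s p => omega

lemma mid {z z' : Bool × ℤ} (H : Gr z z') (h6 : z.2 % 6 = 1) :
    ReflTransGen S0 (L z.1 (0, z.2 + 6)) (R z'.1 (0, z'.2)) := by
  have p3 : ∀ k : ℕ, (3 : ℤ) ^ k % 7 ≠ 0 ∧ (3 : ℤ) ^ k % 2 = 1 := by
    intro k
    induction k with
    | zero => norm_num
    | succ k ih => rw [pow_succ]; omega
  cases H with
  | ab k u h7 =>
    have := mul6 (b := u) (p76 (3 ^ k))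
    have j := junc k h7 (by omega)
    have a := p7 (p3 k).1 h7
    have b : 3 ^ k * u % 2 ≠ 0 := by rw [Int.mul_emod, (p3 k).2]; omega
    simp only [sub_add_cancel]
    refine ((run_g j.1 false).1.tail ⟨L_mod _ _, ?_⟩).trans (run_g j.2 true).2
    simp only [L, R, cd, Bool.false_eq_true, if_true, if_false, Int.reduceAdd]
    rw [g_E _ (by norm_num) (by norm_num)]
    simp [h, a, b]
  | ba k u h7 =>
    have := mul6 (b := u) (p76 (2 * 3 ^ k))
    have j := junc k h7 (by omega)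
    have a := p7 (p3 k).1 h7
    have b : 3 ^ k * u % 2 ≠ 0 := by rw [Int.mul_emod, (p3 k).2]; omega
    simp only [sub_add_cancel]
    refine ((run_g j.2 true).1.tail ⟨L_mod _ _, ?_⟩).trans (run_g j.1 false).2
    simp only [L, R, cd, Bool.false_eq_true, if_true, if_false, Int.reduceAdd]
    rw [g_E _ (by norm_num) (by norm_num)]
    simp [h, a, b]
  | nj s p hp =>
    obtain ⟨v, u, h7, rfl⟩ := WfDvdMonoid.max_power_factor (a₀ := p) (x := 7) (by omega)
      (Int.prime_iff_natAbs_prime.2 (by norm_num)).irreducible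
    have := mul6 (b := u) (p76 v)
    obtain ⟨j, y, h1, h2, h3⟩ := nonj v (y := u) (by omega) (by omega)
    simp only [sub_add_cancel]
    refine ((run_g h1 s).1.tail ⟨L_mod _ _, ?_⟩).trans (run_g h1 s).2
    have c1 : s = false → j = 1 → y % 2 = 0 := by
      rintro rfl rfl
      by_contra o
      obtain ⟨k, rfl⟩ := (h3.resolve_left (by simp)).resolve_right (by simp) |>.2 o
      exact hp k u (by omega) (by simp)
    have c2 : s = true → j = 2 → y % 2 = 0 := by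
      rintro rfl rfl
      by_contra o
      obtain ⟨k, rfl⟩ := (h3.resolve_left (by simp)).resolve_left (by simp) |>.2 o
      exact hp k u (by omega) (by simp)
    rcases h3 with ⟨rfl, h3⟩ | ⟨rfl, -⟩ | ⟨rfl, -⟩ <;> cases s <;>
      simp only [L, R, cd, Bool.false_eq_true, if_true, if_false, Int.reduceAdd] <;>
      rw [g_E _ (by norm_num) (by norm_num)] <;> simp_all [h]

def Z (z : Bool × ℤ) : ℤ := if z.1 then E 0 (z.2 / 6) else 32 * (z.2 / 6) + 1

def S (z : Bool × ℤ) (a b : ℤ) : Prop := (a % 32 = 0 ∨ (z.1 = false ∧ a / 32 = z.2 / 6)) ∧ g a = b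

lemma blk (m : ℤ) (r : ℕ) (hr : r ≤ 30) :
    ReflTransGen (fun a b => a / 32 = m ∧ g a = b) (32 * m + 1) (32 * m + 1 + r) := by
  induction r with
  | zero => simpa using ReflTransGen.refl
  | succ r ih =>
    refine (ih (by omega)).tail ⟨by omega, ?_⟩
    unfold g
    rw [if_neg (by omega), if_neg (by omega)]
    push_cast; ring

lemma rmono {α : Type} {r p : α → α → Prop} {a b : α} (H : ReflTransGen r a b)
    (h : ∀ a b, r a b → p a b) : ReflTransGen p a b := ReflTransGen.mono h _ _ H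

lemma ret {z z' : Bool × ℤ} (H : Gr z z') (h6 : z.2 % 6 = 1) : TransGen (S z) (Z z) (Z z') := by
  have h6' := Gr_mod H
  have m : ReflTransGen (S z) _ _ := rmono (mid H h6) fun a b h => ⟨Or.inl h.1, h.2⟩
  obtain ⟨s, n⟩ := z
  obtain ⟨s', n'⟩ := z'
  simp only at h6 h6' m
  have e2 : g (R s' (0, n')) = Z (s', n') := by
    cases s' <;> simp only [Z, R, cd, Bool.false_eq_true, if_true, if_false, Int.reduceAdd] <;>
      rw [g_E _ (by norm_num) (by norm_num)] <;>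
      simp only [h, Int.reduceEq, if_true, if_false] <;> split_ifs <;> omega
  refine TransGen.tail' (ReflTransGen.trans ?_ m) ⟨Or.inl (R_mod _ _), e2⟩
  cases s
  · refine ReflTransGen.tail (rmono (blk (n / 6) 30 le_rfl) fun a b h => ⟨Or.inr ⟨rfl, h.1⟩, h.2⟩)
      ⟨Or.inr ⟨rfl, by omega⟩, ?_⟩
    rw [show 32 * (n / 6) + 1 + ((30 : ℕ) : ℤ) = 32 * (n / 6) + 31 by push_cast; ring, g_Z]
    simp only [L, cd, Bool.false_eq_true, if_false]
    congr 1; omega
  · refine .single ⟨Or.inl (by simp only [Z, E, if_true]; omega), ?_⟩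
    simp only [Z, L, cd, if_true]
    rw [g_E _ (by norm_num) (by norm_num)]
    simp only [h, if_true]
    congr 1; omega

end Pool.Agent.H.MP_317f4c_nt
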