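import Pool.Agent.H.MP_317f4c_nt.A

set_option autoImplicit false

namespace Pool.Agent.H.MP_317f4c_nt
open Relation

def idx (e : ℕ) (y : ℤ) : ℤ := (y - 7 ^ e) / (6 * 7 ^ e)

def W (e : ℕ) (y : ℤ) : Bool := decide (idx e y % 7 = 2 ∨ idx e y % 7 = 4 ∨ idx e y % 7 = 6)

lemma idx_eq {e : ℕ} {y i : ℤ} : idx e y = i ↔ 7 ^ e * (6 * i + 1) ≤ y ∧ y < 7 ^ e * (6 * i + 7) := by
  unfold idx
  rw [Int.ediv_eq_iff_of_pos (by positivity)]
  constructor <;> rintro ⟨h1, h2⟩ <;> constructor <;> nlinarith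

lemma idx_c {e f : ℕ} (hf : f ≤ e) {n y : ℤ} (h6 : n % 6 = 1) (h1 : n * 7 ^ f ≤ y)
    (h2 : y < (n + 6) * 7 ^ f) : idx e y = idx e (n * 7 ^ f) := by
  obtain ⟨a, rfl⟩ := Nat.exists_eq_add_of_le hf
  obtain ⟨k1, k2⟩ := idx_eq.1 (rfl : idx (f + a) (n * 7 ^ f) = _)
  set i := idx (f + a) (n * 7 ^ f)
  refine idx_eq.2 ⟨k1.trans h1, h2.trans_le ?_⟩
  have p : (0 : ℤ) < 7 ^ f := by positivity
  rw [pow_add, mul_assoc, mul_comm n] at k2
  have k3 := lt_of_mul_lt_mul_left k2 p.le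
  have k4 := mul6 (b := 6 * i + 7) (p76 a)
  rw [pow_add, mul_assoc, mul_comm (n + 6)]
  exact mul_le_mul_of_nonneg_left (by omega) p.le

lemma idx_p {e f : ℕ} (hf : f ≤ e) {p : ℤ} (h6 : p % 6 = 1) :
    idx e ((p - 6) * 7 ^ f) = idx e (p * 7 ^ f - 1) := by
  have q : (0 : ℤ) < 7 ^ f := by positivity
  exact (idx_c hf (by omega) (by nlinarith) (by nlinarith)).symm

lemma idx_j {e : ℕ} (i : ℤ) :
    idx e (7 ^ e * (6 * i + 1)) = i ∧ idx e (7 ^ e * (6 * i + 1) - 1) = i - 1 := by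
  have q : (0 : ℤ) < 7 ^ e := by positivity
  exact ⟨idx_eq.2 ⟨le_rfl, by nlinarith⟩, idx_eq.2 ⟨by nlinarith, by nlinarith⟩⟩

lemma u6 {e f : ℕ} {p u : ℤ} (h6 : p % 6 = 1) (h : p * 7 ^ f = 7 ^ e * u) :
    ∃ i, u = 6 * i + 1 := by
  have a := mul6 (b := u) (p76 e)
  have b := mul6 (b := p) (p76 f)
  rw [mul_comm, h] at b
  exact ⟨u / 6, by omega⟩

lemma W_b {e f : ℕ} (hf : f ≤ e) {p u : ℤ} (h6 : p % 6 = 1) (h : p * 7 ^ f = 7 ^ e * u)
    (h7 : u % 7 ≠ 0) : W e ((p - 6) * 7 ^ f) = !W e (p * 7 ^ f) := by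
  obtain ⟨i, rfl⟩ := u6 h6 h
  simp only [W, idx_p hf h6, h, idx_j]
  rw [← decide_not, decide_eq_decide]
  have a : i % 7 ≠ 1 := fun c => h7 (by omega)
  clear h7
  omega

lemma W_c {e f : ℕ} (hf : f ≤ e) {p u : ℤ} (h6 : p % 6 = 1) (h : p * 7 ^ f = 7 ^ e * u)
    (h7 : u % 7 = 0) : W e ((p - 6) * 7 ^ f) = false ∧ W e (p * 7 ^ f) = false := by
  obtain ⟨i, rfl⟩ := u6 h6 h
  simp only [W, idx_p hf h6, h, idx_j, decide_eq_false_iff_not]
  omega

lemma W_a {e f : ℕ} (hf : f ≤ e) {p : ℤ} (h6 : p % 6 = 1)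
    (h : ∀ u, u % 7 ≠ 0 → p * 7 ^ f ≠ 7 ^ e * u) : W e ((p - 6) * 7 ^ f) = W e (p * 7 ^ f) := by
  obtain ⟨k1, k2⟩ := idx_eq.1 (rfl : idx e (p * 7 ^ f) = _)
  rcases k1.eq_or_lt with k | k
  · have := W_c hf h6 k.symm (by_contra fun c => h _ c k.symm)
    rw [this.1, this.2]
  · have : idx e (p * 7 ^ f - 1) = idx e (p * 7 ^ f) := idx_eq.2 ⟨by omega, by omega⟩
    simp only [W, idx_p hf h6, this]

lemma W_cen {e : ℕ} {y : ℤ} (h : |y| < 7 ^ e) : W e y = true := by
  have : idx e y = -1 := idx_eq.2 (by rw [abs_lt] at h; constructor <;> linarith [h.1, h.2])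
  simp [W, this]

lemma idx_add (e : ℕ) (y t : ℤ) : idx e (y + 6 * 7 ^ e * t) = idx e y + t := by
  unfold idx
  rw [add_sub_right_comm, Int.add_mul_ediv_left _ _ (by positivity)]

def U : ℕ → ℕ
  | 0 => 0
  | k + 1 => 3 ^ k

lemma U_le (k : ℕ) : U k ≤ U (k + 1) ∧ 2 * U k + 1 ≤ U (k + 1) := by
  rcases k with _ | k
  · simp [U]
  · have := Nat.one_le_pow k 3 (by omega)
    simp only [U, pow_succ]; omega

lemma U_mono : Monotone U := monotone_nat_of_le_succ fun k => (U_le k).1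

def st (s : Bool) (n : ℤ) : ℕ → Bool × ℕ
  | 0 => (s, 0)
  | k + 1 => (xor (st s n k).1 (W (2 * U (k + 1))
      (n * 7 ^ ((st s n k).2 + if (st s n k).1 then 0 else U (k + 1) - U k))),
      (st s n k).2 + if (st s n k).1 then 0 else U (k + 1) - U k)

lemma st2 (s : Bool) (n : ℤ) (k : ℕ) :
    (st s n (k + 1)).2 = (st s n k).2 + if (st s n k).1 then 0 else U (k + 1) - U k := rfl

lemma st1 (s : Bool) (n : ℤ) (k : ℕ) :
    (st s n (k + 1)).1 = xor (st s n k).1 (W (2 * U (k + 1)) (n * 7 ^ (st s n (k + 1)).2)) := rfl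

lemma st_le (s : Bool) (n : ℤ) (k : ℕ) : (st s n k).2 ≤ U k := by
  induction k with
  | zero => simp [st]
  | succ k ih => have := U_le k; rw [st2]; split_ifs <;> omega

lemma st_hi (s : Bool) {p : ℤ} (h6 : p % 6 = 1) (k : ℕ) (h : 7 ^ (2 * U k + 1) ∣ p) :
    st s p k = (s, if s then 0 else U k) ∧ st s (p - 6) k = (s, if s then 0 else U k) := by
  induction k with
  | zero => cases s <;> simp [st, U]
  | succ k ih =>
    have a := U_le k
    obtain ⟨i1, i2⟩ := ih ((pow_dvd_pow _ (by omega)).trans h)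
    obtain ⟨w, rfl⟩ := h
    have e : ((if s then 0 else U k) + if s then 0 else U (k + 1) - U k) =
        if s then 0 else U (k + 1) := by split_ifs <;> omega
    have := W_c (e := 2 * U (k + 1)) (f := if s then 0 else U (k + 1)) (by split_ifs <;> omega) h6
      (u := 7 * (w * 7 ^ (if s then 0 else U (k + 1)))) (by ring) (by omega)
    simp only [st, i1, i2, e, this, Bool.xor_false, and_self]

lemma val_ne {a b : ℕ} (h : a < b) {u w : ℤ} (h7 : u % 7 ≠ 0) : 7 ^ a * u ≠ 7 ^ b * w := by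
  obtain ⟨c, rfl⟩ := Nat.exists_eq_add_of_lt h
  intro e
  rw [pow_succ, pow_add, mul_assoc, mul_assoc] at e
  have := mul_left_cancel₀ (by positivity) e
  rw [mul_left_comm] at this
  omega

lemma st_nj (s : Bool) {p : ℤ} (h6 : p % 6 = 1) (K : ℕ) (h : ∀ k < K, ∀ u : ℤ, u % 7 ≠ 0 →
    p ≠ 7 ^ ((if s then 2 else 1) * 3 ^ k) * u) : st s (p - 6) K = st s p K := by
  induction K with
  | zero => rfl
  | succ K ih =>
    have i := ih fun k hk => h k (by omega)
    have a := U_le K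
    have b := st_le s p (K + 1)
    have : W (2 * U (K + 1)) ((p - 6) * 7 ^ (st s p (K + 1)).2) =
        W (2 * U (K + 1)) (p * 7 ^ (st s p (K + 1)).2) := by
      refine W_a (by omega) h6 fun u h7 e => ?_
      obtain ⟨c, hc⟩ := Nat.exists_eq_add_of_le (show (st s p (K + 1)).2 ≤ 2 * U (K + 1) by omega)
      rw [hc, pow_add, mul_comm p, mul_assoc] at e
      have e2 := mul_left_cancel₀ (by positivity) e
      have d := (st_hi s h6 K (by rw [e2]; exact (pow_dvd_pow _ (by omega)).mul_right _)).1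
      refine h K (by omega) u h7 ?_
      rw [e2]
      rw [st2, d] at hc
      congr 2
      cases s <;> simp [U] at hc a ⊢ <;> omega
    rw [st2] at this
    simp only [st, i, this]

lemma st_pair (k : ℕ) {u : ℤ} (h7 : u % 7 ≠ 0) (h6 : u % 6 = 1) (j : ℕ) :
    ((st false (7 ^ 3 ^ k * u - 6) (k + 1 + j)).1 = (st true (7 ^ (2 * 3 ^ k) * u) (k + 1 + j)).1 ∧
      (st false (7 ^ 3 ^ k * u - 6) (k + 1 + j)).2 =
        (st true (7 ^ (2 * 3 ^ k) * u) (k + 1 + j)).2 + 3 ^ k) ∧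
    ((st true (7 ^ (2 * 3 ^ k) * u - 6) (k + 1 + j)).1 = (st false (7 ^ 3 ^ k * u) (k + 1 + j)).1 ∧
      (st false (7 ^ 3 ^ k * u) (k + 1 + j)).2 =
        (st true (7 ^ (2 * 3 ^ k) * u - 6) (k + 1 + j)).2 + 3 ^ k) := by
  have a6 : 7 ^ 3 ^ k * u % 6 = 1 := (mul6 (p76 _)).trans h6
  have b6 : 7 ^ (2 * 3 ^ k) * u % 6 = 1 := (mul6 (p76 _)).trans h6
  have a := U_le k
  have uk : U (k + 1) = 3 ^ k := rfl
  induction j with
  | zero =>
    obtain ⟨i1, i2⟩ := st_hi false a6 k ((pow_dvd_pow _ (by omega)).mul_right _)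
    obtain ⟨i3, i4⟩ := st_hi true b6 k ((pow_dvd_pow _ (by omega)).mul_right _)
    have e : U k + (3 ^ k - U k) = 3 ^ k := by omega
    have w1 := W_b (e := 2 * 3 ^ k) (f := 3 ^ k) (by omega) a6 (by ring) h7
    have w2 := W_b (e := 2 * 3 ^ k) (f := 0) (by omega) b6 (by ring) h7
    have e2 : (7 : ℤ) ^ 3 ^ k * u * 7 ^ 3 ^ k = 7 ^ (2 * 3 ^ k) * u * 7 ^ 0 := by ring
    simp only [add_zero, st, i1, i2, i3, i4, uk, e, w1, w2, e2, Bool.false_eq_true, if_true, if_false]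
    simp
  | succ j ih =>
    obtain ⟨⟨i1, i2⟩, i3, i4⟩ := ih
    have m : U (k + 1) ≤ U (k + 1 + j) := U_mono (by omega)
    have m2 := U_le (k + 1 + j)
    have f1 : (st false (7 ^ 3 ^ k * u - 6) (k + 1 + j + 1)).2 =
        (st true (7 ^ (2 * 3 ^ k) * u) (k + 1 + j + 1)).2 + 3 ^ k := by
      rw [st2, st2, i1, i2]; ring
    have f2 : (st false (7 ^ 3 ^ k * u) (k + 1 + j + 1)).2 =
        (st true (7 ^ (2 * 3 ^ k) * u - 6) (k + 1 + j + 1)).2 + 3 ^ k := by
      rw [st2, st2, i3, i4]; ring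
    have l1 := st_le false (7 ^ 3 ^ k * u - 6) (k + 1 + j + 1)
    have l2 := st_le false (7 ^ 3 ^ k * u) (k + 1 + j + 1)
    rw [← add_assoc]
    refine ⟨⟨?_, f1⟩, ?_, f2⟩
    · rw [st1, st1, i1, W_a (by omega) a6, f1]
      · congr 2; ring
      · intro w _
        rw [mul_right_comm, ← pow_add]
        exact val_ne (by omega) h7
    · rw [st1, st1, i3, W_a (by omega) b6, f2]
      · congr 2; ring
      · intro w _
        rw [mul_right_comm, ← pow_add]
        exact val_ne (by omega) h7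

def tau (K : ℕ) (z : Bool × ℤ) : ℤ := z.2 * 7 ^ (st z.1 z.2 K).2

lemma Gr_inv {z z' : Bool × ℤ} (H : Gr z z') (h6 : z'.2 % 6 = 1) (K : ℕ) :
    ((st z.1 z.2 K).1 = (st z'.1 z'.2 K).1 ∧ tau K z' = (z.2 + 6) * 7 ^ (st z.1 z.2 K).2) ∨
      ∃ k, K ≤ k ∧ 7 ^ 3 ^ k ∣ z.2 + 6 := by
  cases H with
  | ab k u h7 =>
    rcases le_or_gt K k with l | l
    · exact Or.inr ⟨k, l, by simp⟩
    · obtain ⟨j, rfl⟩ := Nat.exists_eq_add_of_le (show k + 1 ≤ K from l)
      have := (st_pair k h7 ((mul6 (p76 _)).symm.trans h6) j).1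
      refine Or.inl ⟨this.1, ?_⟩
      simp only [tau, this.2]
      ring
  | ba k u h7 =>
    rcases le_or_gt K k with l | l
    · exact Or.inr ⟨k, l, by simpa using (pow_dvd_pow _ (by omega)).mul_right _⟩
    · obtain ⟨j, rfl⟩ := Nat.exists_eq_add_of_le (show k + 1 ≤ K from l)
      have := (st_pair k h7 ((mul6 (p76 _)).symm.trans h6) j).2
      refine Or.inl ⟨this.1, ?_⟩
      simp only [tau, this.2]
      ring
  | nj s p h =>
    have := st_nj s h6 K fun k _ => h k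
    exact Or.inl ⟨by rw [this], by simp only [tau, this, sub_add_cancel]⟩

lemma tile (K : ℕ) {z z' : Bool × ℤ} (h6 : z.2 % 6 = 1) (h6' : z'.2 % 6 = 1)
    (hc : (st z.1 z.2 K).1 = (st z'.1 z'.2 K).1) (h1 : tau K z ≤ tau K z')
    (h2 : tau K z' < (z.2 + 6) * 7 ^ (st z.1 z.2 K).2) : z = z' := by
  induction K with
  | zero =>
    simp only [st, tau, pow_zero, mul_one] at hc h1 h2
    exact Prod.ext hc (by omega)
  | succ K ih =>
    have l := st_le z.1 z.2 (K + 1)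
    have e := idx_c (e := 2 * U (K + 1)) (by omega) h6 h1 h2
    have w : W (2 * U (K + 1)) (z'.2 * 7 ^ (st z'.1 z'.2 (K + 1)).2) =
        W (2 * U (K + 1)) (z.2 * 7 ^ (st z.1 z.2 (K + 1)).2) := by
      unfold W; rw [← e]; rfl
    rw [st1, st1, w] at hc
    have hc' : (st z.1 z.2 K).1 = (st z'.1 z'.2 K).1 := by simpa using hc
    simp only [tau, st2, ← hc', pow_add, ← mul_assoc] at h1 h2
    exact ih hc' (le_of_mul_le_mul_right h1 (by positivity))
      (lt_of_mul_lt_mul_right h2 (by positivity))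

lemma conn (K : ℕ) (d : ℕ) {z z' : Bool × ℤ} (h6 : z.2 % 6 = 1) (h6' : z'.2 % 6 = 1)
    (hc : (st z.1 z.2 K).1 = false) (hc' : (st z'.1 z'.2 K).1 = false) (h1 : tau K z ≤ tau K z')
    (hd : tau K z' < tau K z + d) (b1 : -7 ^ (U K + 3 ^ K) < tau K z)
    (b2 : tau K z' < 7 ^ (U K + 3 ^ K)) : ReflTransGen Gr z z' := by
  induction d generalizing z with
  | zero => omega
  | succ d ih =>
    by_cases h2 : tau K z' < (z.2 + 6) * 7 ^ (st z.1 z.2 K).2
    · rw [tile K h6 h6' (hc.trans hc'.symm) h1 h2]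
    obtain ⟨y, hy⟩ := Gr_next z.1 z.2
    have y6 := Gr_mod hy
    have q : (0 : ℤ) < 7 ^ (st z.1 z.2 K).2 := by positivity
    have lt : tau K z < (z.2 + 6) * 7 ^ (st z.1 z.2 K).2 := by unfold tau; nlinarith
    rcases Gr_inv hy (by omega) K with ⟨i1, i2⟩ | ⟨k, l, dv⟩
    · refine .head hy (ih (by omega) (i1.symm.trans hc) ?_ ?_ ?_) <;> simp only at i2 <;> omega
    · exfalso
      have a := U_le K
      have uk : U (K + 1) = 3 ^ K := rfl
      have dv2 : 7 ^ 3 ^ K ∣ z.2 + 6 := (pow_dvd_pow _ (Nat.pow_le_pow_right (by omega) l)).trans dv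
      have s := (st_hi z.1 (p := z.2 + 6) (by omega) K ((pow_dvd_pow _ (by omega)).trans dv2)).2
      rw [add_sub_cancel_right] at s
      rw [s] at hc
      simp only at hc
      rw [s, hc] at h2 lt
      simp only [Bool.false_eq_true, if_false] at h2 lt
      have dv3 : 7 ^ (U K + 3 ^ K) ∣ (z.2 + 6) * 7 ^ U K := by
        rw [pow_add, mul_comm]; exact mul_dvd_mul_right dv2 _
      have := Int.eq_zero_of_abs_lt_dvd dv3 (abs_lt.2 ⟨by omega, by omega⟩)
      rcases mul_eq_zero.1 this with h | h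
      · omega
      · exact absurd h (by positivity)

lemma bnd {n : ℤ} {a b c : ℕ} (h : |n| < 7 ^ a) (hb : a + b ≤ c) : |n * 7 ^ b| < 7 ^ c := by
  rw [abs_mul, abs_pow, abs_of_pos (by norm_num : (0 : ℤ) < 7)]
  refine (mul_lt_mul_of_pos_right h (by positivity)).trans_le ?_
  rw [← pow_add]
  exact pow_le_pow_right₀ (by norm_num) hb

def par (K : ℕ) : Bool := decide (K % 2 = 1)

lemma par_succ (K : ℕ) : par (K + 1) = !par K := by
  unfold par
  rw [← decide_not, decide_eq_decide]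
  omega

def P (z : Bool × ℤ) : Prop := z.2 % 6 = 1 ∧ ∀ᶠ K in Filter.atTop, (st z.1 z.2 K).1 = par K

lemma stab (s : Bool) {n : ℤ} {K : ℕ} (h : |n| < 7 ^ 3 ^ K) (j : ℕ) :
    xor (st s n (K + j)).1 (par (K + j)) = xor (st s n K).1 (par K) := by
  induction j with
  | zero => rfl
  | succ j ih =>
    have l := st_le s n (K + j + 1)
    have m : U (K + 1) ≤ U (K + j + 1) := U_mono (by omega)
    have uk : U (K + 1) = 3 ^ K := rfl
    rw [← add_assoc, st1, par_succ, W_cen (bnd h (by omega)), ← ih]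
    simp

lemma P_col {z : Bool × ℤ} (H : P z) {K : ℕ} (h : |z.2| < 7 ^ 3 ^ K) : (st z.1 z.2 K).1 = par K := by
  obtain ⟨j, hj, l⟩ := (H.2.and (Filter.eventually_ge_atTop K)).exists
  obtain ⟨j, rfl⟩ := Nat.exists_eq_add_of_le l
  have := stab z.1 h j
  rw [hj] at this
  simpa using this.symm

lemma col_one (K : ℕ) : (st false 1 K).1 = par K := by
  have := stab false (n := 1) (K := 0) (by norm_num) K
  rw [zero_add] at this
  simpa [st, par] using this

lemma P_iff {z z' : Bool × ℤ} (H : Gr z z') : P z ↔ P z' := by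
  have m := Gr_mod H
  unfold P
  rw [m]
  refine and_congr_right fun h6 => Filter.eventually_congr ?_
  filter_upwards [Filter.eventually_ge_atTop (z.2 + 6).natAbs] with K hK
  rcases Gr_inv H h6 K with ⟨i, -⟩ | ⟨k, l, dv⟩
  · rw [i]
  · exfalso
    have a : k < 3 ^ k := Nat.lt_pow_self (by norm_num)
    have b : 3 ^ k < 7 ^ 3 ^ k := Nat.lt_pow_self (by norm_num)
    have c : ((7 ^ 3 ^ k : ℕ) : ℤ) = 7 ^ 3 ^ k := by push_cast; rfl
    have := Int.eq_zero_of_abs_lt_dvd dv (by rw [← c, Int.abs_eq_natAbs]; omega)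
    omega

def I (x : ℤ) : Prop :=
  ∃ z z', P z ∧ Gr z z' ∧ ReflTransGen (S z) (Z z) x ∧ TransGen (S z) x (Z z')

lemma I_Z {z : Bool × ℤ} (H : P z) : I (Z z) := by
  obtain ⟨y, hy⟩ := Gr_next z.1 z.2
  exact ⟨z, y, H, hy, .refl, ret hy H.1⟩

lemma I_g (x : ℤ) : I x ↔ I (g x) := by
  constructor
  · rintro ⟨z, z', h1, h2, h3, h4⟩
    obtain ⟨y, k1, k2⟩ := TransGen.head'_iff.1 h4
    rw [k1.2]
    rcases reflTransGen_iff_eq_or_transGen.1 k2 with rfl | k2
    · exact I_Z ((P_iff h2).1 h1)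
    · exact ⟨z, z', h1, h2, h3.tail k1, k2⟩
  · rintro ⟨z, z', h1, h2, h3, h4⟩
    rcases h3.cases_tail with e | ⟨c, k1, k2⟩
    · obtain ⟨y, hy⟩ := Gr_prev z.1 z.2
      have py := (P_iff hy).2 h1
      obtain ⟨c, k1, k2⟩ := TransGen.tail'_iff.1 (ret hy py.1)
      obtain rfl : c = x := g_bij.1 (k2.2.trans e.symm)
      exact ⟨y, z, py, hy, k1, .single k2⟩
    · obtain rfl : c = x := g_bij.1 k2.2
      exact ⟨z, z', h1, h2, k1, h4.head k2⟩

lemma I_it (i : ℕ) (x : ℤ) : I x ↔ I (g^[i] x) := by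
  induction i with
  | zero => rfl
  | succ i ih => rw [Function.iterate_succ_apply', ← I_g, ih]

def Orb (a b : ℤ) : Prop := ∃ i : ℕ, g^[i] a = b ∨ g^[i] b = a

lemma upper {x : ℤ} (H : Orb 1 x) (h : x % 32 ≠ 0) : P (false, 6 * (x / 32) + 1) := by
  have a : I 1 := I_Z (z := (false, 1)) ⟨rfl, Filter.Eventually.of_forall col_one⟩
  have b : I x := by
    obtain ⟨i, rfl | e⟩ := H
    · exact (I_it _ _).1 a
    · exact (I_it i _).2 (e ▸ a)
  obtain ⟨⟨s, n⟩, z', h1, -, -, h4⟩ := b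
  obtain ⟨y, k1, -⟩ := TransGen.head'_iff.1 h4
  obtain ⟨rfl, e⟩ := k1.1.resolve_left h
  have := h1.1
  rwa [show 6 * (x / 32) + 1 = n by simp only at e this; omega]

lemma it_of {r : ℤ → ℤ → Prop} {a b : ℤ} (H : ReflTransGen r a b) (h : ∀ a b, r a b → g a = b) :
    ∃ i, g^[i] a = b := by
  induction H with
  | refl => exact ⟨0, rfl⟩
  | tail _ h2 ih =>
    obtain ⟨i, rfl⟩ := ih
    exact ⟨i + 1, by rw [Function.iterate_succ_apply', h _ _ h2]⟩

lemma it_Gr {z z' : Bool × ℤ} (H : ReflTransGen Gr z z') (h6 : z'.2 % 6 = 1) :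
    ∃ i, g^[i] (Z z) = Z z' := by
  induction H with
  | refl => exact ⟨0, rfl⟩
  | tail _ h2 ih =>
    have := Gr_mod h2
    obtain ⟨i, hi⟩ := ih (by omega)
    obtain ⟨j, hj⟩ := it_of (ret h2 (by omega)).to_reflTransGen fun a b h => h.2
    exact ⟨j + i, by rw [Function.iterate_add_apply, hi, hj]⟩

lemma lower {x : ℤ} {K : ℕ} (hK : K % 2 = 0) (h : x % 32 ≠ 0)
    (hc : (st false (6 * (x / 32) + 1) K).1 = false) (hb : |6 * (x / 32) + 1| < 7 ^ 3 ^ K) :
    Orb 1 x := by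
  obtain ⟨j, hj⟩ := it_of (blk (x / 32) (x % 32 - 1).toNat (by omega)) fun a b h => h.2
  rw [show 32 * (x / 32) + 1 + ((x % 32 - 1).toNat : ℤ) = x by omega] at hj
  have c1 : (st false 1 K).1 = false := by rw [col_one]; simp [par, hK]
  have tb : ∀ n : ℤ, |n| < 7 ^ 3 ^ K → |tau K (false, n)| < 7 ^ (U K + 3 ^ K) := by
    intro n hn
    have := st_le false n K
    exact bnd hn (by simp only; omega)
  have t1 := abs_lt.1 (tb _ hb)
  have t2 := abs_lt.1 (tb 1 (one_lt_pow₀ (by norm_num) (by positivity)))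
  have e : Z (false, 6 * (x / 32) + 1) = 32 * (x / 32) + 1 := by
    simp only [Z, Bool.false_eq_true, if_false]; omega
  rcases le_total (tau K (false, 1)) (tau K (false, 6 * (x / 32) + 1)) with l | l
  · obtain ⟨i, hi⟩ := it_Gr (conn K (2 * 7 ^ (U K + 3 ^ K)) (z := (false, 1))
      (z' := (false, 6 * (x / 32) + 1)) rfl (by omega) c1 hc l (by push_cast; omega) t2.1 t1.2)
      (by omega)
    exact ⟨j + i, Or.inl (by rw [Function.iterate_add_apply, ← hj, ← e, ← hi]; rfl)⟩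
  · obtain ⟨i, hi⟩ := it_Gr (conn K (2 * 7 ^ (U K + 3 ^ K)) (z' := (false, 1))
      (z := (false, 6 * (x / 32) + 1)) (by omega) rfl hc c1 l (by push_cast; omega) t1.1 t2.2) rfl
    rw [e, show Z (false, 1) = 1 from rfl] at hi
    rcases le_total i j with l | l <;> obtain ⟨d, rfl⟩ := Nat.exists_eq_add_of_le' l
    · exact ⟨d, Or.inl (by rw [← hj, Function.iterate_add_apply, hi])⟩
    · exact ⟨d, Or.inr (by rw [← hi, Function.iterate_add_apply, hj])⟩

lemma st_per (s : Bool) (n t : ℤ) (K : ℕ) {a : ℕ} (h : 2 * U K + 1 ≤ a) :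
    st s (n + 6 * 7 ^ a * t) K = st s n K := by
  induction K with
  | zero => rfl
  | succ K ih =>
    have := U_le K
    have i := ih (by omega)
    obtain ⟨c, rfl⟩ := Nat.exists_eq_add_of_le h
    have w : ∀ f, W (2 * U (K + 1)) ((n + 6 * 7 ^ (2 * U (K + 1) + 1 + c) * t) * 7 ^ f) =
        W (2 * U (K + 1)) (n * 7 ^ f) := by
      intro f
      rw [show (n + 6 * 7 ^ (2 * U (K + 1) + 1 + c) * t) * 7 ^ f =
        n * 7 ^ f + 6 * 7 ^ (2 * U (K + 1)) * (7 * (7 ^ c * t * 7 ^ f)) by ring]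
      simp only [W, idx_add, Int.add_mul_emod_self_left]
    simp only [st, i, w]

open Finset in
lemma cnt (hh σ : ℤ → ℤ) (D N : ℕ) (inj : Function.Injective σ) (h1 : ∀ m, m ≤ σ m)
    (h2 : ∀ m, σ m ≤ m + D) (h3 : ∀ m, hh (σ m) = hh m + 1) :
    7 * ((Ico (-N : ℤ) N).filter fun m => hh m % 7 = 2 ∨ hh m % 7 = 4 ∨ hh m % 7 = 6).card ≤
      6 * N + 21 * D := by
  let C : ℤ → ℕ := fun r => ((Ico (-N : ℤ) N).filter fun m => hh m % 7 = r).card
  have a : ∀ r, C r ≤ C ((r + 1) % 7) + D := by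
    intro r
    refine (card_le_card_of_injOn σ (t := ((Ico (-N : ℤ) N).filter fun m => hh m % 7 = (r + 1) % 7) ∪
      Ico (N : ℤ) (N + D)) (fun m hm => ?_) inj.injOn).trans ((card_union_le _ _).trans (by simp [C]))
    have := h1 m
    have := h2 m
    simp only [coe_filter, mem_Ico, Set.mem_ofPred_eq, coe_union, Set.mem_union, mem_coe, h3] at hm ⊢
    omega
  have b : C 0 + C 1 + C 2 + C 3 + C 4 + C 5 + C 6 = 2 * N := by
    have := card_eq_sum_card_fiberwise (f := fun m => hh m % 7) (s := Ico (-N : ℤ) N)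
      (t := {0, 1, 2, 3, 4, 5, 6}) (fun m _ => by simp; omega)
    simp only [Int.card_Ico] at this
    rw [sum_insert (by simp), sum_insert (by simp), sum_insert (by simp), sum_insert (by simp),
      sum_insert (by simp), sum_insert (by simp), sum_singleton] at this
    simp only [C]
    omega
  have c : ((Ico (-N : ℤ) N).filter fun m => hh m % 7 = 2 ∨ hh m % 7 = 4 ∨ hh m % 7 = 6).card ≤
      C 2 + (C 4 + C 6) := by
    rw [filter_or, filter_or]
    exact (card_union_le _ _).trans (Nat.add_le_add_left (card_union_le _ _) _)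
  have a2 := a 2
  have a3 := a 3
  have a4 := a 4
  have a5 := a 5
  have a6 := a 6
  have a0 := a 0
  norm_num at a2 a3 a4 a5 a6 a0
  omega

def NN (K : ℕ) : ℕ := 49 * 7 ^ (U (K + 1) + U K)

lemma NN_lt {K : ℕ} (hK : 2 ≤ K) {m : ℤ} (hm : m ∈ Finset.Ico (-NN K : ℤ) (NN K)) :
    |6 * m + 1| < 7 ^ (2 * U (K + 1) - U K) := by
  obtain ⟨k, rfl⟩ := Nat.exists_eq_add_of_le' hK
  have a := Nat.one_le_pow k 3 (by omega)
  have b : |6 * m + 1| < 7 ^ (U (k + 2 + 1) + U (k + 2) + 3) := by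
    simp only [Finset.mem_Ico, NN] at hm
    push_cast at hm
    rw [pow_add, abs_lt]
    constructor <;> linarith [hm.1, hm.2]
  exact b.trans_le (pow_le_pow_right₀ (by norm_num) (by simp only [U, pow_succ]; omega))

lemma bad {K : ℕ} (hK : 2 ≤ K) : 49 * ((Finset.Ico (-NN K : ℤ) (NN K)).filter
    fun m => (st false (6 * m + 1) (K + 1)).1 = true).card ≤ 45 * NN K := by
  have u := U_le K
  let F : ℤ → ℕ := fun m => (st false (6 * m + 1) K).2
  have hF : ∀ m, F m ≤ U K := fun m => st_le _ _ _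
  let σ : ℤ → ℤ := fun m => m + 7 ^ (U (K + 1) + U K - F m)
  have h0 : ∀ m, F (σ m) = F m := by
    intro m
    have := hF m
    simp only [F, σ] at this ⊢
    rw [← st_per false (6 * m + 1) 1 K (a := U (K + 1) + U K - (st false (6 * m + 1) K).2) (by omega)]
    congr 2
    rw [st_per false (6 * m + 1) 1 K (by omega)]
    ring
  have := cnt (fun m => idx (2 * U (K + 1)) ((6 * m + 1) * 7 ^ (F m + (U (K + 1) - U K)))) σ
    (7 ^ (U (K + 1) + U K)) (NN K) (fun a b h => by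
      have e : F a = F b := by rw [← h0 a, h, h0]
      simp only [σ, e] at h
      omega) (fun m => le_add_of_nonneg_right (by positivity))
    (fun m => by
      simp only [σ]
      push_cast
      gcongr
      · norm_num
      · omega)
    (fun m => by
      have := hF m
      simp only [h0]
      rw [← idx_add]
      congr 1
      rw [show 2 * U (K + 1) = U (K + 1) + U K - F m + (F m + (U (K + 1) - U K)) by omega]
      simp only [σ]
      ring)
  have e : NN K = 49 * 7 ^ (U (K + 1) + U K) := rfl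
  refine le_trans (Nat.mul_le_mul_left _ (Finset.card_le_card (Finset.monotone_filter_right _
    (q := fun m => idx (2 * U (K + 1)) ((6 * m + 1) * 7 ^ (F m + (U (K + 1) - U K))) % 7 = 2 ∨
      idx (2 * U (K + 1)) ((6 * m + 1) * 7 ^ (F m + (U (K + 1) - U K))) % 7 = 4 ∨
      idx (2 * U (K + 1)) ((6 * m + 1) * 7 ^ (F m + (U (K + 1) - U K))) % 7 = 6)
    fun m hm h => ?_))) (by omega)
  rw [st1, st2] at h
  cases e : (st false (6 * m + 1) K).1
  · simpa [e, W] using h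
  · exfalso
    have := hF m
    rw [e, W_cen (bnd (NN_lt hK hm) (by simp only [F] at this; simp; omega))] at h
    simp at h

def OS (N : ℕ) : Set ℤ := {k : ℤ | -(N : ℤ) ≤ k ∧ k ≤ (N : ℤ) ∧ ∃ i : ℕ, g^[i] 1 = k ∨ g^[i] k = 1}

lemma NN_lt' {K : ℕ} (hK : 2 ≤ K) {m : ℤ} (hm : m ∈ Finset.Ico (-NN K : ℤ) (NN K)) :
    |6 * m + 1| < 7 ^ 3 ^ (K + 1) :=
  (NN_lt hK hm).trans_le (pow_le_pow_right₀ (by norm_num) (by simp only [U, pow_succ]; omega))

open Finset in
lemma up {K : ℕ} (hK : 2 ≤ K) (he : K % 2 = 0) :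
    49 * (OS (32 * NN K)).ncard ≤ 1493 * NN K + 49 := by
  have b := bad hK
  set B := (Ico (-NN K : ℤ) (NN K)).filter fun m => (st false (6 * m + 1) (K + 1)).1 = true with hB
  have : OS (32 * NN K) ⊆ ↑((Icc (-NN K : ℤ) (NN K)).image (fun y => 32 * y) ∪
      (B ×ˢ Ico (1 : ℤ) 32).image fun p => 32 * p.1 + p.2) := by
    rintro x ⟨h1, h2, h3⟩
    push_cast at h1 h2
    simp only [mem_coe, mem_union, mem_image, mem_product, mem_Icc]
    by_cases h : x % 32 = 0
    · exact Or.inl ⟨x / 32, by omega, by omega⟩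
    · have hm : x / 32 ∈ Ico (-NN K : ℤ) (NN K) := mem_Ico.2 (by omega)
      refine Or.inr ⟨(x / 32, x % 32), ⟨mem_filter.2 ⟨hm, ?_⟩, mem_Ico.2 (by omega)⟩, by omega⟩
      refine (P_col (upper h3 h) (NN_lt' hK hm)).trans ?_
      simp only [par, decide_eq_true_eq]; omega
  have c := Set.ncard_le_ncard this (finite_toSet _)
  rw [Set.ncard_coe_finset] at c
  have d := c.trans ((card_union_le _ _).trans (add_le_add card_image_le card_image_le))
  simp only [Int.card_Icc, card_product, Int.card_Ico, show ((32 : ℤ) - 1).toNat = 31 from rfl] at d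
  omega

open Finset in
lemma lo {K : ℕ} (hK : 2 ≤ K) (he : K % 2 = 1) :
    1643 * NN K ≤ 49 * (OS (32 * NN K)).ncard := by
  have b := bad hK
  have s := card_filter_add_card_filter_not (s := Ico (-NN K : ℤ) (NN K))
    fun m => (st false (6 * m + 1) (K + 1)).1 = true
  set B := (Ico (-NN K : ℤ) (NN K)).filter fun m => ¬ (st false (6 * m + 1) (K + 1)).1 = true with hB
  have : ↑((B ×ˢ Ico (1 : ℤ) 32).image fun p => 32 * p.1 + p.2) ⊆ OS (32 * NN K) := by
    intro x hx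
    simp only [mem_coe, mem_image, mem_product, hB, mem_filter] at hx
    obtain ⟨⟨m, r⟩, ⟨⟨h1, h2⟩, h3⟩, rfl⟩ := hx
    have h4 := NN_lt' hK h1
    simp only [mem_Ico] at h1 h3
    have e : (32 * m + r) / 32 = m := by omega
    refine ⟨by push_cast; omega, by push_cast; omega, lower (K := K + 1) (by omega) (by omega) ?_ ?_⟩
    · simpa [e] using h2
    · simpa [e] using h4
  have c := Set.ncard_le_ncard this ((Set.finite_Icc _ _).subset fun x h => ⟨h.1, h.2.1⟩)
  rw [Set.ncard_coe_finset, card_image_of_injOn] at c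
  · simp only [card_product, Int.card_Ico, show ((32 : ℤ) - 1).toNat = 31 from rfl] at c s
    omega
  · rintro ⟨a, r⟩ h1 ⟨b, t⟩ h2 h
    simp only [mem_coe, mem_product, mem_Ico] at h1 h2 h
    exact Prod.ext (by simp only; omega) (by simp only; omega)

lemma NN_ge (K : ℕ) : K + 3 ≤ NN K := by
  have a : K < 3 ^ K := Nat.lt_pow_self (by norm_num)
  have b : U (K + 1) + U K < 7 ^ (U (K + 1) + U K) := Nat.lt_pow_self (by norm_num)
  have uk : U (K + 1) = 3 ^ K := rfl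
  unfold NN
  omega

open Filter in
lemma main (d : ℝ) :
    ¬ Tendsto (fun N : ℕ => ((OS N).ncard : ℝ) / (2 * (N : ℝ) + 1)) atTop (nhds d) := by
  intro H
  have t : ∀ c, Tendsto (fun j => 32 * NN (2 * j + c)) atTop atTop := fun c =>
    tendsto_atTop_mono (fun j => by have := NN_ge (2 * j + c); simp only [id]; omega) tendsto_id
  have a : d ≤ 48 / 100 := le_of_tendsto' (H.comp (t 2)) fun j => by
    have h1 : (49 * (OS (32 * NN (2 * j + 2))).ncard : ℝ) ≤ 1493 * NN (2 * j + 2) + 49 := by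
      exact_mod_cast up (by omega) (by omega)
    have h2 : (3 : ℝ) ≤ NN (2 * j + 2) := by exact_mod_cast le_trans (by omega) (NN_ge _)
    simp only [Function.comp]
    rw [div_le_iff₀ (by positivity)]
    push_cast
    linarith
  have b : 52 / 100 ≤ d := ge_of_tendsto' (H.comp (t 3)) fun j => by
    have h1 : (1643 * NN (2 * j + 3) : ℝ) ≤ 49 * (OS (32 * NN (2 * j + 3))).ncard := by
      exact_mod_cast lo (by omega) (by omega)
    have h2 : (3 : ℝ) ≤ NN (2 * j + 3) := by exact_mod_cast le_trans (by omega) (NN_ge _)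
    simp only [Function.comp]
    rw [le_div_iff₀ (by positivity)]
    push_cast
    linarith
  linarith

end Pool.Agent.H.MP_317f4c_nt
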